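import Pool.Agent.H88.Annular

set_option autoImplicit false

namespace Pool.Agent.Results.MP_fdf3ca_an.Q1

open Pool.Agent.H88.Annular

theorem result :
    ∃ M : Submodule ℂ C(Disc, ℂ), IsClosed (M : Set C(Disc, ℂ)) ∧ ¬ FiniteDimensional ℂ M ∧
      (∀ f ∈ M, IsHol f) ∧ ∀ f ∈ M, f ≠ 0 → StronglyAnnular f :=
  ⟨Gap 10, isClosed_gap 10, not_finite le_rfl _ (fun _ h => h.1) (ee_mem le_rfl),
    fun f hf => (isHol_iff f).2 hf.1, fun _ hf h0 => gap_annular le_rfl hf h0⟩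

end Pool.Agent.Results.MP_fdf3ca_an.Q1
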